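import Mathlib

set_option autoImplicit false

open Polynomial

namespace Pool.Agent.LLS

variable {k : Type*} [Field k]

/-- the unimodularity of the triple `(AC, AD+BC, BD)`. -/
theorem triple_one {A B C D : k[X]} (h1 : IsCoprime A B) (h2 : IsCoprime C D) :
    Ideal.span ({A * C, A * D + B * C, B * D} : Set k[X]) = ⊤ := by
  by_contra hne
  obtain ⟨M, hM, hle⟩ := Ideal.exists_le_maximal _ hne
  have hP : M.IsPrime := hM.isPrime
  have hs : A * C ∈ M := hle (Ideal.subset_span (by simp))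
  have ht : A * D + B * C ∈ M := hle (Ideal.subset_span (by simp))
  have hu : B * D ∈ M := hle (Ideal.subset_span (by simp))
  have hAB : ¬ (A ∈ M ∧ B ∈ M) := by
    rintro ⟨ha, hb⟩
    obtain ⟨a, b, hab⟩ := h1
    apply hP.ne_top
    rw [Ideal.eq_top_iff_one, ← hab]
    exact M.add_mem (M.mul_mem_left _ ha) (M.mul_mem_left _ hb)
  have hCD : ¬ (C ∈ M ∧ D ∈ M) := by
    rintro ⟨ha, hb⟩
    obtain ⟨a, b, hab⟩ := h2
    apply hP.ne_top
    rw [Ideal.eq_top_iff_one, ← hab]
    exact M.add_mem (M.mul_mem_left _ ha) (M.mul_mem_left _ hb)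
  rcases hP.mem_or_mem hs with ha | hc
  · rcases hP.mem_or_mem hu with hb | hd
    · exact hAB ⟨ha, hb⟩
    · have : B * C ∈ M := by
        have := M.sub_mem ht (M.mul_mem_right D ha)
        simpa using this
      rcases hP.mem_or_mem this with hb | hc
      · exact hAB ⟨ha, hb⟩
      · exact hCD ⟨hc, hd⟩
  · rcases hP.mem_or_mem hu with hb | hd
    · have : A * D ∈ M := by
        have := M.sub_mem ht (M.mul_mem_right C hb)
        simpa using this
      rcases hP.mem_or_mem this with ha | hd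
      · exact hAB ⟨ha, hb⟩
      · exact hCD ⟨hc, hd⟩
    · exact hCD ⟨hc, hd⟩

/-- the three polynomials describing `X(P+Q)` and `X(P-Q)` on `Y^2 = X^3 + 1`. -/
noncomputable def S0 (A B C D : k[X]) : k[X] := (A * D - B * C) ^ 2
noncomputable def S1 (A B C D : k[X]) : k[X] := 2 * (A * C * (A * D + B * C) + 2 * B ^ 2 * D ^ 2)
noncomputable def S2 (A B C D : k[X]) : k[X] := A ^ 2 * C ^ 2 - 4 * (B * D * (A * D + B * C))

theorem S_one {A B C D : k[X]} (h1 : IsCoprime A B) (h2 : IsCoprime C D) (h6 : (432 : k) ≠ 0) :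
    Ideal.span ({S0 A B C D, S1 A B C D, S2 A B C D} : Set k[X]) = ⊤ := by
  by_contra hne
  obtain ⟨M, hM, hle⟩ := Ideal.exists_le_maximal _ hne
  have hP : M.IsPrime := hM.isPrime
  have e0 : S0 A B C D ∈ M := hle (Ideal.subset_span (by simp))
  have e1 : S1 A B C D ∈ M := hle (Ideal.subset_span (by simp))
  have e2 : S2 A B C D ∈ M := hle (Ideal.subset_span (by simp))
  have hcancel : ∀ z : k[X], (-432 : k[X]) * z ^ 4 ∈ M → z ∈ M := by
    intro z hz
    have h432 : (-432 : k[X]) = Polynomial.C (-432 : k) := by rw [map_neg, map_ofNat]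
    have hu : Polynomial.C ((-432 : k)⁻¹) * ((-432 : k[X]) * z ^ 4) = z ^ 4 := by
      rw [h432, ← mul_assoc, ← Polynomial.C_mul, inv_mul_cancel₀ (by simpa using h6)]
      simp
    have : z ^ 4 ∈ M := by
      rw [← hu]; exact M.mul_mem_left _ hz
    exact hP.mem_of_pow_mem _ this
  have hs : A * C ∈ M := by
    apply hcancel
    have : (-432 : k[X]) * (A * C) ^ 4 =
        (-432 * (A * C) ^ 2 - 192 * (A * D + B * C) * (B * D)) * S2 A B C D
        + (-192 * (A * D + B * C) ^ 2) * S1 A B C D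
        + (384 * (A * C) * (A * D + B * C)) * S0 A B C D := by
      simp only [S0, S1, S2]; ring
    rw [this]
    exact M.add_mem (M.add_mem (M.mul_mem_left _ e2) (M.mul_mem_left _ e1)) (M.mul_mem_left _ e0)
  have ht : A * D + B * C ∈ M := by
    apply hcancel
    have : (-432 : k[X]) * (A * D + B * C) ^ 4 =
        (384 * (A * C) * (A * D + B * C)) * S2 A B C D
        + (-192 * (A * C) ^ 2) * S1 A B C D
        + (-192 * (A * C) * (B * D) - 432 * (A * D + B * C) ^ 2) * S0 A B C D := by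
      simp only [S0, S1, S2]; ring
    rw [this]
    exact M.add_mem (M.add_mem (M.mul_mem_left _ e2) (M.mul_mem_left _ e1)) (M.mul_mem_left _ e0)
  have hu : B * D ∈ M := by
    apply hcancel
    have : (-432 : k[X]) * (B * D) ^ 4 =
        (-12 * (A * D + B * C) ^ 2) * S2 A B C D
        + (6 * (A * C) * (A * D + B * C) - 108 * (B * D) ^ 2) * S1 A B C D
        + (-48 * (A * D + B * C) * (B * D)) * S0 A B C D := by
      simp only [S0, S1, S2]; ring
    rw [this]
    exact M.add_mem (M.add_mem (M.mul_mem_left _ e2) (M.mul_mem_left _ e1)) (M.mul_mem_left _ e0)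
  apply hP.ne_top
  rw [eq_top_iff, ← triple_one h1 h2, Ideal.span_le]
  intro z hz
  simp only [Set.mem_insert_iff, Set.mem_singleton_iff] at hz
  rcases hz with rfl | rfl | rfl <;> assumption

/-- two proportional unimodular triples differ by a unit -/
theorem prop_triple {a0 a1 a2 b0 b1 b2 : k[X]} (ha : Ideal.span ({a0, a1, a2} : Set k[X]) = ⊤)
    (hb : Ideal.span ({b0, b1, b2} : Set k[X]) = ⊤) (h1 : a0 * b1 = a1 * b0)
    (h2 : a0 * b2 = a2 * b0) (hb0 : b0 ≠ 0) :
    ∃ u : k[X], IsUnit u ∧ a0 = u * b0 ∧ a1 = u * b1 ∧ a2 = u * b2 := by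
  have key : ∀ {c0 c1 c2 x y : k[X]}, Ideal.span ({c0, c1, c2} : Set k[X]) = ⊤ →
      x ∣ y * c0 → x ∣ y * c1 → x ∣ y * c2 → x ∣ y := by
    intro c0 c1 c2 x y hc d0 d1 d2
    have h : (1 : k[X]) ∈ Ideal.span ({c0, c1, c2} : Set k[X]) := by rw [hc]; trivial
    rw [Ideal.mem_span_insert] at h
    obtain ⟨r0, z, hz, h⟩ := h
    rw [Ideal.mem_span_pair] at hz
    obtain ⟨r1, r2, hz⟩ := hz
    have : y = r0 * (y * c0) + r1 * (y * c1) + r2 * (y * c2) := by
      calc y = y * 1 := by ring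
        _ = y * (r0 * c0 + z) := by rw [← h]
        _ = _ := by rw [← hz]; ring
    rw [this]
    exact dvd_add (dvd_add (Dvd.dvd.mul_left d0 _) (Dvd.dvd.mul_left d1 _)) (Dvd.dvd.mul_left d2 _)
  have d1 : b0 ∣ a0 := key hb (Dvd.intro_left _ rfl) (h1 ▸ Dvd.intro_left _ rfl)
    (h2 ▸ Dvd.intro_left _ rfl)
  have d2 : a0 ∣ b0 := key ha (Dvd.intro_left _ rfl)
    ⟨b1, by rw [h1]; ring⟩ ⟨b2, by rw [h2]; ring⟩
  obtain ⟨u, hu⟩ := associated_of_dvd_dvd d1 d2
  refine ⟨u, u.isUnit, by rw [← hu]; ring, ?_, ?_⟩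
  · apply mul_right_cancel₀ hb0
    rw [← h1, ← hu]; ring
  · apply mul_right_cancel₀ hb0
    rw [← h2, ← hu]; ring

end Pool.Agent.LLS
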