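import Mathlib
import Pool.Agent.LLS.Step

set_option autoImplicit false

open Polynomial Classical

namespace Pool.Agent.LLS

section
variable {K : Type*} [Field K] (F : K)

/-- x-coordinate of the double -/
def dX (X : K) : K := X * (X ^ 3 - 8) / (4 * (X ^ 3 + 1))
/-- y-coordinate of the double -/
def dR (X R : K) : K := R * (X ^ 6 + 20 * X ^ 3 - 8) / (8 * (X ^ 3 + 1) ^ 2)

theorem four_ne (h2 : (2 : K) ≠ 0) : (4 : K) ≠ 0 := by
  have : (4 : K) = 2 * 2 := by norm_num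
  rw [this]; exact mul_ne_zero h2 h2

theorem eight_ne (h2 : (2 : K) ≠ 0) : (8 : K) ≠ 0 := by
  have : (8 : K) = 2 * 4 := by norm_num
  rw [this]; exact mul_ne_zero h2 (four_ne h2)

theorem dbl_curve {X R : K} (h : F * R ^ 2 = X ^ 3 + 1) (h1 : X ^ 3 + 1 ≠ 0) (h2 : (2 : K) ≠ 0) :
    F * (dR X R) ^ 2 = (dX X) ^ 3 + 1 := by
  unfold dR dX
  have h4 := four_ne h2
  have h8 := eight_ne h2
  have e : F * (R * (X ^ 6 + 20 * X ^ 3 - 8) / (8 * (X ^ 3 + 1) ^ 2)) ^ 2
    = (F * R ^ 2) * ((X ^ 6 + 20 * X ^ 3 - 8) / (8 * (X ^ 3 + 1) ^ 2)) ^ 2 := by ring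
  rw [e, h]
  field_simp
  ring

variable [hF : Fact (F ≠ 0 ∧ (432 : K) ≠ 0)]

theorem pt_dbl {X R : K} (h : F * R ^ 2 = X ^ 3 + 1) (h1 : X ^ 3 + 1 ≠ 0) (h2 : (2 : K) ≠ 0) :
    pt F X R h + pt F X R h = pt F (dX X) (dR X R) (dbl_curve F h h1 h2) := by
  obtain ⟨hF0, -⟩ := hF.out
  have h4 := four_ne h2
  have h8 := eight_ne h2
  have hR : R ≠ 0 := by
    rintro rfl
    apply h1
    rw [← h]; ring
  have hy : F ^ 2 * R ≠ (W F).negY (F * X) (F ^ 2 * R) := by
    simp only [WeierstrassCurve.Affine.negY, W]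
    intro h0
    have : 2 * (F ^ 2 * R) = 0 := by linear_combination h0
    exact mul_ne_zero h2 (mul_ne_zero (pow_ne_zero 2 hF0) hR) this
  have hsl : (W F).slope (F * X) (F * X) (F ^ 2 * R) (F ^ 2 * R) = 3 * X ^ 2 / (2 * R) := by
    rw [WeierstrassCurve.Affine.slope_of_Y_ne rfl hy]
    simp only [WeierstrassCurve.Affine.negY, W]
    have : F ^ 2 * R - (-(F ^ 2 * R) - 0 * (F * X) - 0) = 2 * (F ^ 2 * R) := by ring
    rw [this]
    field_simp
    ring
  unfold pt
  rw [WeierstrassCurve.Affine.Point.add_self_of_Y_ne hy,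
    WeierstrassCurve.Affine.Point.some.injEq, hsl]
  have hFe : F = (X ^ 3 + 1) / R ^ 2 := by
    rw [← h]; field_simp
  refine ⟨?_, ?_⟩
  · simp only [WeierstrassCurve.Affine.addX, W, dX]
    rw [hFe]
    field_simp
    ring
  · simp only [WeierstrassCurve.Affine.addY, WeierstrassCurve.Affine.negAddY,
      WeierstrassCurve.Affine.negY, WeierstrassCurve.Affine.addX, W, dR]
    rw [hFe]
    field_simp
    ring

end

variable {k : Type*} [Field k] {K : Type*} [Field K] [Algebra k[X] K] [IsFractionRing k[X] K]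

theorem der_ofNat (n : ℕ) [n.AtLeastTwo] : der (k := k) (OfNat.ofNat n : K) = 0 := by
  have := der_poly (K := K) k (OfNat.ofNat n : k[X])
  rw [map_ofNat, derivative_ofNat, map_zero] at this
  exact this

theorem der_dX {X R c : K} (h1 : X ^ 3 + 1 ≠ 0) (h2 : (2 : K) ≠ 0)
    (hd : der (k := k) X = c * R) : der (k := k) (dX X) = (2 * c) * dR X R := by
  have h4 := four_ne h2
  have h8 := eight_ne h2
  unfold dX dR
  rw [der_div k _ _ (mul_ne_zero h4 h1), der_mul, der_mul, der_sub, der_add, der_pow k X 2, der_one,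
    der_ofNat, der_ofNat, hd]
  push_cast
  field_simp
  ring

end Pool.Agent.LLS
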