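import Mathlib
import Pool.Agent.LLS.Dbl

set_option autoImplicit false

open Polynomial Classical

namespace Pool.Agent.LLS

variable (k : Type*) [Field k] (K : Type*) [Field K] [Algebra k[X] K] [IsFractionRing k[X] K]

/-- `f = x^3+1` in the function field. -/
noncomputable def FF : K := (algebraMap k[X] K) (X ^ 3 + 1 : k[X])

/-- the coordinate `x`. -/
noncomputable def xx : K := (algebraMap k[X] K) (X : k[X])

theorem FF_eq : FF k K = xx k K ^ 3 + 1 := by simp [FF, xx]

theorem der_xx : der (k := k) (xx k K) = 1 := by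
  unfold xx
  rw [der_poly, derivative_X, map_one]

variable {k K}

theorem natCast_ne {n : ℕ} (h : (n : k) ≠ 0) : (n : K) ≠ 0 := by
  have : (n : K) = (algebraMap k[X] K) (Polynomial.C (n : k)) := by simp
  rw [this]
  exact phi_ne (C_ne_zero.2 h)

theorem xx_ne : xx k K ≠ 0 := phi_ne X_ne_zero

theorem X3_ne (c : k) : (X ^ 3 + Polynomial.C c : k[X]) ≠ 0 := by
  have : (X ^ 3 + Polynomial.C c : k[X]).Monic := by monicity!
  exact this.ne_zero

theorem FF_ne : FF k K ≠ 0 := by
  have := X3_ne (k := k) 1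
  rw [map_one] at this
  exact phi_ne this

theorem cop_of {A B : k[X]} (a b : k[X]) {c : k} (hc : c ≠ 0)
    (h : a * A + b * B = Polynomial.C c) : IsCoprime A B := by
  refine ⟨Polynomial.C c⁻¹ * a, Polynomial.C c⁻¹ * b, ?_⟩
  have h1 : Polynomial.C c⁻¹ * Polynomial.C c = 1 := by
    rw [← Polynomial.C_mul, inv_mul_cancel₀ hc, Polynomial.C_1]
  linear_combination Polynomial.C c⁻¹ * h + h1

variable (h432 : (432 : k) ≠ 0)

include h432 in
theorem two_ne : (2 : k) ≠ 0 := by
  intro h; apply h432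
  have : (432 : k) = 216 * 2 := by norm_num
  rw [this, h, mul_zero]

include h432 in
theorem three_ne : (3 : k) ≠ 0 := by
  intro h; apply h432
  have : (432 : k) = 144 * 3 := by norm_num
  rw [this, h, mul_zero]

include h432 in
theorem two_neK : (2 : K) ≠ 0 := by
  have := natCast_ne (K := K) (k := k) (n := 2) (by exact_mod_cast two_ne h432)
  exact_mod_cast this

include h432 in
theorem three_neK : (3 : K) ≠ 0 := by
  have := natCast_ne (K := K) (k := k) (n := 3) (by exact_mod_cast three_ne h432)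
  exact_mod_cast this

include h432 in
theorem fact432 : Fact (FF k K ≠ 0 ∧ (432 : K) ≠ 0) := by
  refine ⟨FF_ne, ?_⟩
  have := natCast_ne (K := K) (k := k) (n := 432) (by exact_mod_cast h432)
  exact_mod_cast this

variable [hF : Fact (FF k K ≠ 0 ∧ (432 : K) ≠ 0)]

omit hF in
theorem P1_curve : FF k K * 1 ^ 2 = xx k K ^ 3 + 1 := by rw [FF_eq]; ring

omit hF in
theorem x31_ne : xx k K ^ 3 + 1 ≠ 0 := by rw [← FF_eq]; exact FF_ne

/-- the point `2 P_1` -/
noncomputable def P2 (h2 : (2 : K) ≠ 0) : (W (FF k K)).Point :=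
  pt (FF k K) (dX (xx k K)) (dR (xx k K) 1) (dbl_curve _ P1_curve x31_ne h2)

include h432 in
theorem stp_two {q : k} (hq : q ^ 2 = 3) (h2 : (2 : K) ≠ 0) :
    Stp (FF k K) q (P2 h2) 4 2 (4 * (2 - q)) := by
  have k2 := two_ne h432
  have k3 := three_ne h432
  have hC : (X ^ 4 - 8 * X : k[X]).Monic := by monicity!
  have hCd : (X ^ 4 - 8 * X : k[X]).natDegree = 4 := by compute_degree!
  have hDd : (4 * (X ^ 3 + 1) : k[X]).natDegree < 4 := by
    have : (4 * (X ^ 3 + 1) : k[X]).natDegree ≤ 3 := by compute_degree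
    omega
  have k9 : (9 : k) ≠ 0 := by
    have : (9 : k) = 3 * 3 := by norm_num
    rw [this]; exact mul_ne_zero k3 k3
  have k4 : (4 : k) ≠ 0 := four_ne k2
  have hD0 : (4 * (X ^ 3 + 1) : k[X]) ≠ 0 := by
    have h1 := X3_ne (k := k) 1
    rw [map_one] at h1
    rw [← Polynomial.C_ofNat 4]
    exact mul_ne_zero (C_ne_zero.2 k4) h1
  have hDt : ((-1 + q) ^ 3 + 1 : k) = 3 * (q * (2 - q)) := by grind
  have hq0 : q ≠ 0 := by rintro rfl; apply k3; rw [← hq]; ring
  have hq2 : 2 - q ≠ 0 := by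
    intro h
    have h1 : (2 - q) * (2 + q) = 1 := by linear_combination -hq
    rw [h, zero_mul] at h1
    exact zero_ne_one h1
  refine ⟨_, _, _, X ^ 4 - 8 * X, 4 * (X ^ 3 + 1), rfl, ?_, hC, by rw [hCd]; rfl, by rw [hCd]; exact hDd,
    hD0, ?_, ?_, ?_, ?_, ?_, ?_, ?_⟩
  · refine cop_of (4 * X ^ 2) (9 - X ^ 3) (c := 36) ?_ ?_
    · have : (36 : k) = 4 * 9 := by norm_num
      rw [this]; exact mul_ne_zero k4 k9
    · rw [map_ofNat]; ring
  · simp only [dX, xx, map_sub, map_mul, map_add, map_pow, map_ofNat, map_one]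
    ring_nf
  · have := der_dX (k := k) (X := xx k K) (R := 1) (c := 1) x31_ne h2 (by rw [der_xx]; ring)
    rw [this]; ring
  · simp only [eval_sub, eval_mul, eval_add, eval_pow, eval_X, eval_ofNat, eval_one]
    grind
  · simp only [eval_sub, eval_mul, eval_add, eval_pow, eval_X, eval_ofNat, eval_one]
    rw [hDt]
    exact mul_ne_zero k4 (mul_ne_zero k3 (mul_ne_zero hq0 hq2))
  · simp only [eval_sub, eval_mul, eval_add, eval_pow, eval_X, eval_ofNat, eval_one]
    ring
  · simp only [eval_sub, eval_mul, eval_add, eval_pow, eval_X, eval_ofNat, eval_one]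
    have : ((-1) ^ 4 - 8 * (-1) : k) = 9 := by norm_num
    rw [this]; exact k9
  · simp only [eval_sub, eval_mul, eval_add, eval_pow, eval_X, eval_ofNat, eval_one]
    grind

end Pool.Agent.LLS
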