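import Mathlib
import Pool.Agent.LLS.Base2

set_option autoImplicit false

open Polynomial Classical

namespace Pool.Agent.LLS

section ids
variable {L : Type*} [Field L]

theorem id7_1 {s : L} (hs : s ^ 2 = -3) :
    (-8 + 24 * s) * (2 + s) ^ 2 - (2 - 2 * s) * ((20 + 24 * s) * (2 + s) - (2 - 2 * s))
      = -216 * (3 + s) := by grind

theorem id7_2u {σ u : L} (hs : σ ^ 2 = -3) :
    (u - 8) * (u + 4) * (u ^ 2 + 44 * u + 16) + 288 * u * (u + 1) ^ 2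
        - 4 * σ * (u + 1) * (u ^ 2 + 20 * u - 8) * (u - 8)
        = (u ^ 2 + (20 + 24 * σ) * u + (-8 + 24 * σ)) * ((2 - σ) * u + (2 + 2 * σ)) ^ 2 := by
  grind

theorem id7_2 {σ x : L} (hs : σ ^ 2 = -3) :
    (x ^ 3 - 8) * (x ^ 3 + 4) * (x ^ 6 + 44 * x ^ 3 + 16) + 288 * x ^ 3 * (x ^ 3 + 1) ^ 2
        - 4 * σ * (x ^ 3 + 1) * (x ^ 6 + 20 * x ^ 3 - 8) * (x ^ 3 - 8)
        = (x ^ 6 + (20 + 24 * σ) * x ^ 3 + (-8 + 24 * σ)) * ((2 - σ) * x ^ 3 + (2 + 2 * σ)) ^ 2 := by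
  have h := id7_2u (σ := σ) (u := x ^ 3) hs
  have e : (x ^ 3) ^ 2 = x ^ 6 := by ring
  rw [e] at h
  exact h

theorem id7_3 {s q : L} (h3 : (3 : L) ≠ 0) (hs : s ^ 2 = -3) (hq : q ^ 2 = 3) :
    ((2 + s) * (-1 + q) ^ 3 + (2 - 2 * s)) =
        2 * (2 - q) * (1 + s * q / 3) * (-3 * s) := by
  have : 2 * (2 - q) * (1 + s * q / 3) * (-3 * s) = 2 * (2 - q) * (3 + s * q) * (-s) := by
    field_simp
  rw [this]
  grind

theorem id7_4 {s q : L} (h3 : (3 : L) ≠ 0) (hs : s ^ 2 = -3) (hq : q ^ 2 = 3) :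
    (1 + s * q / 3) * (1 - s * q / 3) = 2 := by
  field_simp
  grind

theorem id7_5 {s : L} (hs : s ^ 2 = -3) :
    -1 * ((-1) ^ 6 + (20 + 24 * s) * (-1) ^ 3 + (-8 + 24 * s)) =
      -((2 + s) * (-1) ^ 3 + (2 - 2 * s)) ^ 2 := by
  grind

theorem id7_6 {s q : L} (hs : s ^ 2 = -3) (hq : q ^ 2 = 3) :
    (-1 + q) * ((-1 + q) ^ 6 + (20 + 24 * s) * (-1 + q) ^ 3 + (-8 + 24 * s)) =
      (-1 - q) * ((2 + s) * (-1 + q) ^ 3 + (2 - 2 * s)) ^ 2 := by
  grind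

theorem id7_7 {s q : L} (h3 : (3 : L) ≠ 0) (hs : s ^ 2 = -3) (hq : q ^ 2 = 3) :
    ((2 + s) * (-1 + q) ^ 3 + (2 - 2 * s)) =
        2 * (2 - q) * (1 + s * q / 3) * ((2 + s) * (-1) ^ 3 + (2 - 2 * s)) := by
  rw [id7_3 h3 hs hq]; ring

theorem id7_8 {G x u v w : L} (hx : x ≠ 0) (hw : w ≠ 0) (hu : u ≠ 0) (hv : v ≠ 0)
    (h12 : (12 : L) ≠ 0) :
    G * v ^ 2 / (144 * x ^ 3 * w ^ 2) / (u * v / (12 * x ^ 2 * w)) ^ 2 = x * G / u ^ 2 := by
  have h144 : (144 : L) = 12 ^ 2 := by norm_num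
  rw [h144]
  field_simp
end ids

variable {k : Type*} [Field k] {K : Type*} [Field K] [Algebra k[X] K] [IsFractionRing k[X] K]

variable [hF : Fact (FF k K ≠ 0 ∧ (432 : K) ≠ 0)] (h432 : (432 : k) ≠ 0)

/-- addition formula without slopes -/
theorem aX_mul (F : K) {X1 R1 X2 R2 : K} (h1 : F * R1 ^ 2 = X1 ^ 3 + 1)
    (h2 : F * R2 ^ 2 = X2 ^ 3 + 1) (hne : X1 ≠ X2) :
    aX F X1 R1 X2 R2 = (X1 * X2 * (X1 + X2) + 2 - 2 * F * R1 * R2) / (X1 - X2) ^ 2 := by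
  have hd : X1 - X2 ≠ 0 := sub_ne_zero.2 hne
  rw [eq_div_iff (pow_ne_zero 2 hd)]
  unfold aX sl
  field_simp
  linear_combination h1 + h2

include h432 in
theorem rec_7 {q : k} (hq : q ^ 2 = 3) (h7 : (7 : k) ≠ 0) (h3 : (3 : K) ≠ 0) (h2 : (2 : K) ≠ 0)
    {s : k} (hs : s ^ 2 = -3) :
    Rec (FF k K) q (P2 h2 + Ps h3 hs) 7 (2 + (algebraMap k[X] K) (Polynomial.C s))
      (2 * (2 - q) * (1 + s * q / 3)) := by
  have k2 := two_ne h432
  have k3 := three_ne h432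
  have k4 : (4 : k) ≠ 0 := four_ne k2
  have K4 := four_ne h2
  have K8 := eight_ne h2
  have K12 : (12 : K) ≠ 0 := by
    have : (12 : K) = 4 * 3 := by norm_num
    rw [this]; exact mul_ne_zero K4 h3
  have K9 : (9 : K) ≠ 0 := by
    have : (9 : K) = 3 * 3 := by norm_num
    rw [this]; exact mul_ne_zero h3 h3
  have hx := xx_ne (k := k) (K := K)
  have hx1 := x31_ne (k := k) (K := K)
  have hs0 := s_ne h432 hs
  have hsK := sK_sq (K := K) hs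
  have g1 : (2 + s) * (2 - s) = 7 := by linear_combination -hs
  have g2 : 2 + s ≠ 0 := by intro h; rw [h, zero_mul] at g1; exact h7 g1.symm
  have g3 : 2 - s ≠ 0 := by intro h; rw [h, mul_zero] at g1; exact h7 g1.symm
  have g4 : (2 - 2 * s) * (2 + 2 * s) = 4 * 4 := by linear_combination -4 * hs
  have g5 : 2 - 2 * s ≠ 0 := by
    intro h; rw [h, zero_mul] at g4; exact mul_ne_zero k4 k4 g4.symm
  have g6 : (3 + s) * (3 - s) = 4 * 3 := by linear_combination -hs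
  have g7 : 3 + s ≠ 0 := by
    intro h; rw [h, zero_mul] at g6; exact mul_ne_zero k4 k3 g6.symm
  -- the two cubics
  have hψ : (Polynomial.C (2 + s) * X ^ 3 + Polynomial.C (2 - 2 * s) : k[X]) ≠ 0 := by
    intro h
    have := congrArg (eval 0) h
    simp at this
    exact g5 this
  have hψ' : (Polynomial.C (2 - s) * X ^ 3 + Polynomial.C (2 + 2 * s) : k[X]) ≠ 0 := by
    intro h
    have := congrArg (eval 0) h
    simp at this
    rw [this, mul_zero] at g4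
    exact mul_ne_zero k4 k4 g4.symm
  set σ : K := (algebraMap k[X] K) (Polynomial.C s) with hσ
  set x := xx k K with hxx
  have eψ : (algebraMap k[X] K) (Polynomial.C (2 + s) * X ^ 3 + Polynomial.C (2 - 2 * s)) =
      (2 + σ) * x ^ 3 + (2 - 2 * σ) := by
    simp [hσ, hxx, xx, map_ofNat]
  have eψ' : (algebraMap k[X] K) (Polynomial.C (2 - s) * X ^ 3 + Polynomial.C (2 + 2 * s)) =
      (2 - σ) * x ^ 3 + (2 + 2 * σ) := by
    simp [hσ, hxx, xx, map_ofNat]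
  have nψ : (2 + σ) * x ^ 3 + (2 - 2 * σ) ≠ 0 := by rw [← eψ]; exact phi_ne hψ
  have nψ' : (2 - σ) * x ^ 3 + (2 + 2 * σ) ≠ 0 := by rw [← eψ']; exact phi_ne hψ'
  have hprodψ : ((2 + σ) * x ^ 3 + (2 - 2 * σ)) * ((2 - σ) * x ^ 3 + (2 + 2 * σ))
      = 7 * x ^ 6 - 4 * x ^ 3 + 16 := by
    linear_combination (-x ^ 6 + 4 * x ^ 3 - 4) * hsK
  have hdiff : dX x - Xs k K = (((2 + σ) * x ^ 3 + (2 - 2 * σ)) *
      ((2 - σ) * x ^ 3 + (2 + 2 * σ))) / (12 * x ^ 2 * (x ^ 3 + 1)) := by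
    rw [hprodψ]
    unfold dX Xs
    rw [← hxx]
    field_simp
    ring
  have hne : dX x ≠ Xs k K := by
    rw [← sub_ne_zero, hdiff]
    exact div_ne_zero (mul_ne_zero nψ nψ')
      (mul_ne_zero (mul_ne_zero K12 (pow_ne_zero 2 hx)) hx1)
  have hc1 : FF k K * (dR x 1) ^ 2 = (dX x) ^ 3 + 1 := dbl_curve _ P1_curve x31_ne h2
  have hc2 := Ps_curve (K := K) h3 hs
  have hG : (X ^ 6 + Polynomial.C (20 + 24 * s) * X ^ 3 + Polynomial.C (-8 + 24 * s) : k[X]).Monic := by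
    monicity!
  have hGd : (X ^ 6 + Polynomial.C (20 + 24 * s) * X ^ 3 + Polynomial.C (-8 + 24 * s) : k[X]).natDegree
      = 6 := by compute_degree!
  have hA : (X * (X ^ 6 + Polynomial.C (20 + 24 * s) * X ^ 3 + Polynomial.C (-8 + 24 * s)) :
      k[X]).Monic := monic_X.mul hG
  have hAd : (X * (X ^ 6 + Polynomial.C (20 + 24 * s) * X ^ 3 + Polynomial.C (-8 + 24 * s)) :
      k[X]).natDegree = 7 := by
    rw [monic_X.natDegree_mul hG, hGd, natDegree_X]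
  have hBd : ((Polynomial.C (2 + s) * X ^ 3 + Polynomial.C (2 - 2 * s)) ^ 2 : k[X]).natDegree < 7 := by
    have : ((Polynomial.C (2 + s) * X ^ 3 + Polynomial.C (2 - 2 * s)) ^ 2 : k[X]).natDegree ≤ 6 := by
      compute_degree
    omega
  have hcopG : IsCoprime (X ^ 6 + Polynomial.C (20 + 24 * s) * X ^ 3 + Polynomial.C (-8 + 24 * s) :
      k[X]) (Polynomial.C (2 + s) * X ^ 3 + Polynomial.C (2 - 2 * s)) := by
    refine cop_of (Polynomial.C ((2 + s) ^ 2)) (-(Polynomial.C (2 + s) * X ^ 3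
      + Polynomial.C ((20 + 24 * s) * (2 + s) - (2 - 2 * s)))) (c := -216 * (3 + s)) ?_ ?_
    · have : (-216 : k) ≠ 0 := by
        have : (-216 : k) = -(2 * 4 * 3 * 3 * 3) := by norm_num
        rw [this]
        exact neg_ne_zero.2 (mul_ne_zero (mul_ne_zero (mul_ne_zero (mul_ne_zero k2 k4) k3) k3) k3)
      exact mul_ne_zero this g7
    · have e : ((-8 + 24 * s) * (2 + s) ^ 2 - (2 - 2 * s) * ((20 + 24 * s) * (2 + s) - (2 - 2 * s)))
          = -216 * (3 + s) := id7_1 hs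
      rw [← e]
      simp only [map_add, map_sub, map_mul, map_pow, map_neg, map_ofNat]
      ring
  have hcopX : IsCoprime (X : k[X]) (Polynomial.C (2 + s) * X ^ 3 + Polynomial.C (2 - 2 * s)) := by
    refine cop_of (-(Polynomial.C (2 + s) * X ^ 2)) 1 (c := 2 - 2 * s) g5 ?_
    ring
  have hR1 : dR x 1 ≠ 0 := by
    intro h0
    have hh := hc1
    rw [h0] at hh
    obtain ⟨Xa, Ra, ha, C, D, hpt, h1, h2', h3', h4', h5', h6', -⟩ :=
      stp_two (K := K) h432 hq h2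
    unfold P2 at hpt
    rw [pt_inj] at hpt
    rw [← hxx] at hpt
    have := R_ne (FF k K) ha h2' h4' h5' h6'
    rw [← hpt.2] at this
    exact this h0
  have hR2 : Rs K s ≠ 0 := by
    obtain ⟨Xa, Ra, ha, A, B, ψ, hpt, h1, h2', h3', h4', h5', h6', h7', h8', -⟩ :=
      rec_s (K := K) h432 hq h3 hs
    unfold Ps at hpt
    rw [pt_inj] at hpt
    have hψ0 : ψ ≠ 0 := by rintro rfl; simp at h8'
    have := R_ne (FF k K) ha h2' h4' (by rw [h7']; exact pow_ne_zero 2 hψ0) h5'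
    rw [← hpt.2] at this
    exact this
  unfold P2 Ps
  rw [pt_add _ _ _ (by rw [← hxx]; exact hne)]
  refine ⟨_, _, _, X * (X ^ 6 + Polynomial.C (20 + 24 * s) * X ^ 3 + Polynomial.C (-8 + 24 * s)),
    (Polynomial.C (2 + s) * X ^ 3 + Polynomial.C (2 - 2 * s)) ^ 2,
    Polynomial.C (2 + s) * X ^ 3 + Polynomial.C (2 - 2 * s), rfl,
    (hcopX.mul_left hcopG).pow_right, hA, by rw [hAd]; rfl, by rw [hAd]; exact hBd, ?_, ?_, rfl,
    ?_, ?_, ?_, ?_, ?_⟩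
  · have eA : (algebraMap k[X] K) (X * (X ^ 6 + Polynomial.C (20 + 24 * s) * X ^ 3 + Polynomial.C (-8 + 24 * s)))
        = x * (x ^ 6 + (20 + 24 * σ) * x ^ 3 + (-8 + 24 * σ)) := by
      simp [hσ, hxx, xx, map_ofNat]
    rw [eA, map_pow, eψ]
    rw [← hxx]
    rw [aX_mul _ hc1 hc2 hne, hdiff]
    have hFx : FF k K = x ^ 3 + 1 := FF_eq k K
    rw [hFx]
    unfold dX dR Xs Rs
    rw [← hxx, ← hσ]
    have key : (x ^ 3 - 8) * (x ^ 3 + 4) * (x ^ 6 + 44 * x ^ 3 + 16) + 288 * x ^ 3 * (x ^ 3 + 1) ^ 2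
        - 4 * σ * (x ^ 3 + 1) * (x ^ 6 + 20 * x ^ 3 - 8) * (x ^ 3 - 8)
        = (x ^ 6 + (20 + 24 * σ) * x ^ 3 + (-8 + 24 * σ)) * ((2 - σ) * x ^ 3 + (2 + 2 * σ)) ^ 2 :=
      id7_2 hsK
    have lhs : (x * (x ^ 3 - 8) / (4 * (x ^ 3 + 1)) * (-(x ^ 3 + 4) / (3 * x ^ 2)) *
        (x * (x ^ 3 - 8) / (4 * (x ^ 3 + 1)) + -(x ^ 3 + 4) / (3 * x ^ 2)) + 2 -
        2 * (x ^ 3 + 1) * (1 * (x ^ 6 + 20 * x ^ 3 - 8) / (8 * (x ^ 3 + 1) ^ 2)) *
        (σ * (x ^ 3 - 8) / (9 * x ^ 3)))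
        = ((x ^ 3 - 8) * (x ^ 3 + 4) * (x ^ 6 + 44 * x ^ 3 + 16) + 288 * x ^ 3 * (x ^ 3 + 1) ^ 2
        - 4 * σ * (x ^ 3 + 1) * (x ^ 6 + 20 * x ^ 3 - 8) * (x ^ 3 - 8))
          / (144 * x ^ 3 * (x ^ 3 + 1) ^ 2) := by
      have K144 : (144 : K) ≠ 0 := by
        have : (144 : K) = 12 * 12 := by norm_num
        rw [this]; exact mul_ne_zero K12 K12
      field_simp
      ring
    rw [lhs, key]
    have K144 : (144 : K) ≠ 0 := by
      have : (144 : K) = 12 * 12 := by norm_num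
      rw [this]; exact mul_ne_zero K12 K12
    clear key lhs
    revert nψ nψ'
    generalize (2 + σ) * x ^ 3 + (2 - 2 * σ) = u
    generalize (2 - σ) * x ^ 3 + (2 + 2 * σ) = v
    generalize x ^ 6 + (20 + 24 * σ) * x ^ 3 + (-8 + 24 * σ) = G
    intro nψ nψ'
    revert hx1
    generalize x ^ 3 + 1 = w
    intro hx1
    exact id7_8 hx hx1 nψ nψ' K12
  · rw [← hxx]
    exact der_aX k _ h2 hc1 hc2 hne hR1 hR2 (by
      have := der_dX (k := k) (X := xx k K) (R := 1) (c := 1) x31_ne h2 (by rw [der_xx]; ring)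
      rw [← hxx] at this
      rw [this]; ring) (der_Xs h3 hs)
  · simp only [eval_add, eval_mul, eval_pow, eval_X, eval_C]
    have : ((2 + s) * (-1) ^ 3 + (2 - 2 * s)) = -3 * s := by ring
    rw [this]
    exact mul_ne_zero (neg_ne_zero.2 k3) hs0
  · simp only [eval_add, eval_mul, eval_pow, eval_X, eval_C]
    have e1 : ((2 + s) * (-1 + q) ^ 3 + (2 - 2 * s)) =
        2 * (2 - q) * (1 + s * q / 3) * (-3 * s) := id7_3 k3 hs hq
    rw [e1]
    have hq2 : 2 - q ≠ 0 := by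
      intro h
      have h1 : (2 - q) * (2 + q) = 1 := by linear_combination -hq
      rw [h, zero_mul] at h1
      exact zero_ne_one h1
    have hi : (1 + s * q / 3) * (1 - s * q / 3) = 2 := id7_4 k3 hs hq
    have hi' : (1 + s * q / 3) ≠ 0 := by
      intro h; rw [h, zero_mul] at hi; exact k2 hi.symm
    exact mul_ne_zero (mul_ne_zero (mul_ne_zero k2 hq2) hi') (mul_ne_zero (neg_ne_zero.2 k3) hs0)
  · simp only [eval_add, eval_mul, eval_pow, eval_X, eval_C]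
    exact id7_5 hs
  · simp only [eval_add, eval_mul, eval_pow, eval_X, eval_C]
    exact id7_6 hs hq
  · simp only [eval_add, eval_mul, eval_pow, eval_X, eval_C]
    exact id7_7 k3 hs hq

end Pool.Agent.LLS
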