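import Mathlib
import Pool.Agent.LLS.Chain

set_option autoImplicit false

open Polynomial Classical

namespace Pool.Agent.LLS

section ids
variable {L : Type*} [Field L]

theorem id8_1 {q : L} (hq : q ^ 2 = 3) : (1 - q) * (1 - q) = 2 * (2 - q) := by
  linear_combination hq

theorem id8_2 {s q : L} (h3 : (3 : L) ≠ 0) (hs : s ^ 2 = -3) (hq : q ^ 2 = 3) :
    (s * q / 3) ^ 2 = -1 := by
  field_simp
  linear_combination q ^ 2 * hs - 3 * hq

theorem id8_3 {s q : L} (h3 : (3 : L) ≠ 0) (hs : s ^ 2 = -3) (hq : q ^ 2 = 3) :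
    (1 - s * q / 3) * (s * q / 3) = 1 + s * q / 3 := by
  have := id8_2 h3 hs hq
  linear_combination -this

end ids

variable {k : Type*} [Field k] {K : Type*} [Field K] [Algebra k[X] K] [IsFractionRing k[X] K]

theorem rec_ab [hF : Fact (FF k K ≠ 0 ∧ (432 : K) ≠ 0)] (h432 : (432 : k) ≠ 0) {q : k}
    (hq : q ^ 2 = 3) (h7 : (7 : k) ≠ 0) (h3 : (3 : K) ≠ 0) (h2 : (2 : K) ≠ 0)
    {s : k} (hs : s ^ 2 = -3) (a j : ℕ) :
    ∃ P : (W (FF k K)).Point, Rec (FF k K) q P (4 * a ^ 2 + 3 * (2 * j - 1) ^ 2)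
      (2 * a + (2 * j - 1) * (algebraMap k[X] K) (Polynomial.C s))
      ((1 - q) * ((1 - q) * (1 - s * q / 3) * (s * q / 3) ^ j) ^ a *
        (-(4 * (2 - q)) ^ 3) ^ (j.choose 2) * (4 * (2 - q)) ^ (a.choose 2)) := by
  have k2 := two_ne h432
  have k3 := three_ne h432
  have k4 : (4 : k) ≠ 0 := four_ne k2
  have hq2 : 2 - q ≠ 0 := by
    intro h
    have h1 : (2 - q) * (2 + q) = 1 := by linear_combination -hq
    rw [h, zero_mul] at h1
    exact zero_ne_one h1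
  have hκ : 4 * (2 - q) ≠ 0 := mul_ne_zero k4 hq2
  have hκ' : -(4 * (2 - q)) ^ 3 ≠ 0 := neg_ne_zero.2 (pow_ne_zero 3 hκ)
  have h1q : 1 - q ≠ 0 := by
    intro h
    have := id8_1 hq
    rw [h, zero_mul] at this
    exact mul_ne_zero k2 hq2 this.symm
  have hi := id8_2 k3 hs hq
  have hi3 := id8_3 k3 hs hq
  have hi4 := id7_4 k3 hs hq
  set i := s * q / 3 with hidef
  have hi0 : i ≠ 0 := by
    intro h
    rw [h] at hi
    have : (1 : k) = 0 := by linear_combination hi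
    exact one_ne_zero this
  have hi1 : 1 - i ≠ 0 := by
    intro h; rw [h, mul_zero] at hi4; exact k2 hi4.symm
  -- the b-direction at a = 0
  have A0 : Rec (FF k K) q (-Ps h3 hs) 3 (-(algebraMap k[X] K) (Polynomial.C s)) (1 - q) :=
    rec_neg (rec_s (K := K) h432 hq h3 hs)
  have A1 : Rec (FF k K) q (-Ps h3 hs + (Ps h3 hs + Ps h3 hs)) (3 + 0)
      (-(algebraMap k[X] K) (Polynomial.C s) + 2 * (algebraMap k[X] K) (Polynomial.C s)) ((1 - q) * 1) := by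
    have := rec_s (K := K) h432 hq h3 hs
    have e1 : -Ps h3 hs + (Ps h3 hs + Ps h3 hs) = Ps h3 hs := by abel
    rw [e1]
    convert this using 1
    · ring
    · ring
    · ring
  have AA := (chain (FF k K) hq h432 h1q one_ne_zero hκ' A0 A1 (stp_s (K := K) h432 hq h3 h2 hs) j).1
  -- the b-direction at a = 1
  have B0 : Rec (FF k K) q (P2 h2 + -Ps h3 hs) 7 (2 + -(algebraMap k[X] K) (Polynomial.C s))
      (2 * (2 - q) * (1 - i)) := by
    rw [neg_Ps]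
    have := rec_7 (K := K) h432 hq h7 h3 h2 (neg_sq3 hs)
    convert this using 1
    · rw [Polynomial.C_neg, map_neg]
    · rw [hidef]; ring
  have B1 : Rec (FF k K) q (P2 h2 + -Ps h3 hs + (Ps h3 hs + Ps h3 hs)) (7 + 0)
      (2 + -(algebraMap k[X] K) (Polynomial.C s) + 2 * (algebraMap k[X] K) (Polynomial.C s)) ((2 * (2 - q) * (1 - i)) * i) := by
    have := rec_7 (K := K) h432 hq h7 h3 h2 hs
    have e1 : P2 h2 + -Ps h3 hs + (Ps h3 hs + Ps h3 hs) = P2 h2 + Ps h3 hs := by abel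
    rw [e1]
    convert this using 1
    · ring
    · ring
    · rw [← hidef]; linear_combination 2 * (2 - q) * hi3
  have BB := (chain (FF k K) hq h432 (mul_ne_zero (mul_ne_zero k2 hq2) hi1) hi0 hκ' B0 B1
    (stp_s (K := K) h432 hq h3 h2 hs) j).1
  -- the a-direction
  have hρ : (1 - q) * (1 - i) * i ^ j ≠ 0 := mul_ne_zero (mul_ne_zero h1q hi1) (pow_ne_zero _ hi0)
  have hr : (1 - q) * (-(4 * (2 - q)) ^ 3) ^ (j.choose 2) ≠ 0 :=
    mul_ne_zero h1q (pow_ne_zero _ hκ')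
  have C0 : Rec (FF k K) q (-Ps h3 hs + j • (Ps h3 hs + Ps h3 hs)) (3 * (2 * j - 1) ^ 2)
      ((2 * j - 1) * (algebraMap k[X] K) (Polynomial.C s)) ((1 - q) * (-(4 * (2 - q)) ^ 3) ^ (j.choose 2)) := by
    convert AA using 1
    · ring
    · ring
    · ring
  have C1 : Rec (FF k K) q (-Ps h3 hs + j • (Ps h3 hs + Ps h3 hs) + P2 h2)
      (3 * (2 * j - 1) ^ 2 + 4) ((2 * j - 1) * (algebraMap k[X] K) (Polynomial.C s) + 2)
      ((1 - q) * (-(4 * (2 - q)) ^ 3) ^ (j.choose 2) * ((1 - q) * (1 - i) * i ^ j)) := by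
    have e1 : -Ps h3 hs + j • (Ps h3 hs + Ps h3 hs) + P2 h2
      = P2 h2 + -Ps h3 hs + j • (Ps h3 hs + Ps h3 hs) := by abel
    rw [e1]
    convert BB using 1
    · ring
    · ring
    · have := id8_1 hq
      linear_combination ((-(4 * (2 - q)) ^ 3) ^ (j.choose 2) * (1 - i) * i ^ j) * this
  have CC := (chain (FF k K) hq h432 hr hρ hκ C0 C1 (stp_two (K := K) h432 hq h2) a).1
  refine ⟨-Ps h3 hs + j • (Ps h3 hs + Ps h3 hs) + a • P2 h2, ?_⟩
  convert CC using 1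
  · ring
  · ring
  · ring

/-- `2 = κ^n (1-i) (-i)^l i^{j(2l+1)} (-1)^{C(j,2)}`. -/
theorem main_half (p : ℕ) [hp : Fact p.Prime] [CharP k p] (h432 : (432 : k) ≠ 0) {q : k}
    (hq : q ^ 2 = 3) (h7 : (7 : k) ≠ 0) {s : k} (hs : s ^ 2 = -3) (l j : ℕ) (hj : 1 ≤ j)
    (hpp : p = 4 * (2 * l + 1) ^ 2 + 3 * (2 * j - 1) ^ 2)
    (hrel : 2 * ((2 * l + 1 : ℕ) : k) + ((2 * j - 1 : ℕ) : k) * s = 0) :
    (2 : k) = (4 * (2 - q)) ^ (2 * l ^ 2 + 2 * l + 3 * j.choose 2 + 1) * (1 - s * q / 3) *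
      (-(s * q / 3)) ^ l * (s * q / 3) ^ (j * (2 * l + 1)) * (-1) ^ (j.choose 2) := by
  have k2 := two_ne h432
  have k3 := three_ne h432
  have h2 : (2 : FractionRing k[X]) ≠ 0 := two_neK h432
  have h3 : (3 : FractionRing k[X]) ≠ 0 := three_neK h432
  haveI hF : Fact (FF k (FractionRing k[X]) ≠ 0 ∧ (432 : FractionRing k[X]) ≠ 0) := fact432 h432
  obtain ⟨P, hP⟩ := rec_ab (K := FractionRing k[X]) h432 hq h7 h3 h2 hs (2 * l + 1) j
  have hr := rec_final (FF k (FractionRing k[X])) (q := q) (P := P) (r := ((1 - q) * ((1 - q) * (1 - s * q / 3) * (s * q / 3) ^ j) ^ (2 * l + 1) *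
        (-(4 * (2 - q)) ^ 3) ^ (j.choose 2) * (4 * (2 - q)) ^ ((2 * l + 1).choose 2))) p (by
    convert hP using 1
    · rw [hpp]
      push_cast [Nat.cast_sub (show 1 ≤ 2 * j by omega)]
      ring
    · have := congrArg (fun z : k => algebraMap k[X] (FractionRing k[X]) (Polynomial.C z)) hrel
      simp only [map_add, map_mul, map_zero, map_ofNat, map_natCast] at this
      rw [Nat.cast_sub (show 1 ≤ 2 * j by omega)] at this
      push_cast at this ⊢
      rw [← this])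
  have hi := id8_2 k3 hs hq
  set i := s * q / 3 with hidef
  set κ := 4 * (2 - q) with hκ
  have hch : (2 * l + 1).choose 2 = 2 * l ^ 2 + l := by
    rw [Nat.choose_two_right]
    have : (2 * l + 1) * (2 * l + 1 - 1) = 2 * (2 * l ^ 2 + l) := by
      rw [Nat.add_sub_cancel]; ring
    rw [this]; omega
  rw [hch] at hr
  have hκ1 : (1 - q) ^ 2 * 2 = κ := by rw [hκ]; linear_combination 2 * hq
  have hi2 : (1 - i) ^ 2 = -2 * i := by linear_combination hi
  have e1 : (1 - q) * ((1 - q) * (1 - i) * i ^ j) ^ (2 * l + 1) * 2 ^ (l + 1)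
      = κ ^ (l + 1) * (1 - i) * (-2 * i) ^ l * i ^ (j * (2 * l + 1)) := by
    rw [← hκ1, ← hi2, mul_pow, mul_pow, ← pow_mul i]
    rw [mul_pow ((1 - q) ^ 2), ← pow_mul, ← pow_mul (1 - i)]
    ring
  have e2 : (-κ ^ 3) ^ (j.choose 2) = (-1) ^ (j.choose 2) * κ ^ (3 * j.choose 2) := by
    rw [neg_pow, ← pow_mul]
  have e3 : (-2 * i) ^ l = 2 ^ l * (-i) ^ l := by rw [← mul_pow]; congr 1; ring
  have h2l : (2 : k) ^ l ≠ 0 := pow_ne_zero _ k2
  apply mul_left_cancel₀ h2l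
  calc (2 : k) ^ l * 2 = 1 * 2 ^ (l + 1) := by rw [pow_succ]; ring
    _ = ((1 - q) * ((1 - q) * (1 - i) * i ^ j) ^ (2 * l + 1) * (-κ ^ 3) ^ j.choose 2 *
          κ ^ (2 * l ^ 2 + l)) * 2 ^ (l + 1) := by rw [hr]
    _ = ((1 - q) * ((1 - q) * (1 - i) * i ^ j) ^ (2 * l + 1) * 2 ^ (l + 1)) *
          (-κ ^ 3) ^ j.choose 2 * κ ^ (2 * l ^ 2 + l) := by ring
    _ = _ := by
      rw [e1, e2, e3]
      ring

end Pool.Agent.LLS
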