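import Mathlib
import Pool.Agent.LLS.Main

set_option autoImplicit false

open Polynomial Classical

namespace Pool.Agent.LLS

theorem choose_step (n : ℕ) : (n + 1).choose 2 = n + n.choose 2 := by
  have h1 := Nat.choose_succ_succ n 1
  simp only [Nat.succ_eq_add_one, Nat.choose_one_right, Nat.reduceAdd] at h1
  exact h1

theorem neg_one_choose {R : Type*} [CommRing R] (m r : ℕ) :
    (-1 : R) ^ ((4 * m + r).choose 2) = (-1) ^ (r.choose 2) := by
  induction m with
  | zero => simp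
  | succ m ih =>
    have e : 4 * (m + 1) + r = 4 * m + r + 1 + 1 + 1 + 1 := by ring
    rw [e, choose_step, choose_step, choose_step, choose_step]
    have e2 : 4 * m + r + 1 + 1 + 1 + (4 * m + r + 1 + 1 + (4 * m + r + 1 + (4 * m + r +
      (4 * m + r).choose 2))) = 2 * (8 * m + 2 * r + 3) + (4 * m + r).choose 2 := by ring
    rw [e2, pow_add, pow_mul, ih]
    norm_num

theorem pow_four_mod {R : Type*} [CommRing R] {i : R} (hi : i ^ 2 = -1) (m : ℕ) :
    i ^ m = i ^ (m % 4) := by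
  conv_lhs => rw [← Nat.div_add_mod m 4]
  rw [pow_add, pow_mul]
  have : i ^ 4 = 1 := by
    have : i ^ 4 = (i ^ 2) ^ 2 := by ring
    rw [this, hi]; ring
  rw [this, one_pow, one_mul]

theorem sgn_id {R : Type*} [CommRing R] {i : R} (hi : i ^ 2 = -1) (l j : ℕ) :
    ((1 - i) * (-i) ^ l * i ^ (j * (2 * l + 1)) + (1 + i) * i ^ l * (-i) ^ (j * (2 * l + 1))) *
      (-1) ^ (j.choose 2) = 2 * (if (2 * l + 1) % 8 = 1 ∨ (2 * l + 1) % 8 = 7 then 1 else -1) := by
  have hi' : (-i) ^ 2 = -1 := by rw [neg_sq, hi]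
  have hj : j = 4 * (j / 4) + j % 4 := (Nat.div_add_mod j 4).symm
  have hl : l = 4 * (l / 4) + l % 4 := (Nat.div_add_mod l 4).symm
  have hch : (-1 : R) ^ (j.choose 2) = (-1) ^ ((j % 4).choose 2) := by
    conv_lhs => rw [hj]
    exact neg_one_choose _ _
  have h8 : (2 * l + 1) % 8 = (2 * (l % 4) + 1) % 8 := by omega
  have hm : (j * (2 * l + 1)) % 4 = ((j % 4) * ((2 * (l % 4) + 1) % 4)) % 4 := by
    rw [Nat.mul_mod]
    congr 2
    omega
  rw [hch, pow_four_mod hi (j * (2 * l + 1)), pow_four_mod hi' (j * (2 * l + 1)),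
    pow_four_mod hi l, pow_four_mod hi' l, hm, h8]
  have hjl : j % 4 < 4 := Nat.mod_lt _ (by norm_num)
  have hll : l % 4 < 4 := Nat.mod_lt _ (by norm_num)
  have i3 : i ^ 3 = -i := by
    have : i ^ 3 = i ^ 2 * i := by ring
    rw [this, hi]; ring
  generalize j % 4 = j0 at *
  generalize l % 4 = l0 at *
  clear hj hl hch h8 hm
  interval_cases j0 <;> interval_cases l0 <;> norm_num [Nat.choose] <;>
    first
    | linear_combination 0
    | linear_combination 2 * hi
    | linear_combination -2 * hi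
    | linear_combination 2 * hi * i
    | grind

variable {k : Type*} [Field k]

theorem main_sum (p : ℕ) [hp : Fact p.Prime] [CharP k p] (h432 : (432 : k) ≠ 0) {q : k}
    (hq : q ^ 2 = 3) (h7 : (7 : k) ≠ 0) {s : k} (hs : s ^ 2 = -3) (l j : ℕ) (hj : 1 ≤ j)
    (hpp : p = 4 * (2 * l + 1) ^ 2 + 3 * (2 * j - 1) ^ 2)
    (hrel : 2 * ((2 * l + 1 : ℕ) : k) + ((2 * j - 1 : ℕ) : k) * s = 0) :
    (2 + q) ^ (2 * l ^ 2 + 2 * l + 3 * j.choose 2 + 1) +
      (2 - q) ^ (2 * l ^ 2 + 2 * l + 3 * j.choose 2 + 1) =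
      4 ^ (2 * l ^ 2 + 2 * l + 3 * j.choose 2 + 1) *
        (if (2 * l + 1) % 8 = 1 ∨ (2 * l + 1) % 8 = 7 then 1 else -1) := by
  have k2 := two_ne h432
  have k3 := three_ne h432
  have hq' : (-q) ^ 2 = 3 := by rw [neg_sq, hq]
  have A := main_half p h432 hq h7 hs l j hj hpp hrel
  have B := main_half p h432 hq' h7 hs l j hj hpp hrel
  have hi := id8_2 k3 hs hq
  have e : s * -q / 3 = -(s * q / 3) := by ring
  rw [e, neg_neg, sub_neg_eq_add, sub_neg_eq_add] at B
  generalize 2 * l ^ 2 + 2 * l + 3 * j.choose 2 + 1 = n at *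
  set i := s * q / 3 with hidef
  have hS := sgn_id hi l j
  have hη : (2 + q) * (2 - q) = 1 := by linear_combination -hq
  have hηn : (2 + q) ^ n * (2 - q) ^ n = 1 := by rw [← mul_pow, hη, one_pow]
  rw [mul_pow] at A B
  apply mul_left_cancel₀ k2
  linear_combination (2 + q) ^ n * A + (2 - q) ^ n * B + (4 : k) ^ n * hS +
    4 ^ n * ((1 - i) * (-i) ^ l * i ^ (j * (2 * l + 1)) + (1 + i) * i ^ l *
      (-i) ^ (j * (2 * l + 1))) * (-1) ^ (j.choose 2) * hηn

end Pool.Agent.LLS
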